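import Pool.Agent.K1H77.CG.Stm

/-! # Whitehead moves: connectivity, invariance of the cycle numbers, neighbours of a class -/

set_option autoImplicit false

open Finset

namespace Pool.Agent.K1H96.CG

open Pool.Agent.K1H77.CG

theorem t_WMC : S_WMC := by
  intro n M M' h hM
  obtain ⟨x, f, g, h1, h2, h3, h4, h5, rfl⟩ := h
  have e1 : (Equiv.swap f g) x = x := by
    apply Equiv.swap_apply_of_ne_of_ne (Ne.symm h3)
    rintro rfl
    exact h1 h4
  have e2 : (Equiv.swap f g) (M x) = M x := by
    apply Equiv.swap_apply_of_ne_of_ne _ (Ne.symm h5)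
    intro h
    rw [← h] at h2
    exact h1 h2.symm
  have e3 : ∀ y, (Equiv.swap f g) ((Equiv.swap f g) y) = y := fun y => by
    rw [← Equiv.Perm.mul_apply, Equiv.swap_mul_self]; rfl
  have eM : ∀ y, (Equiv.swap f g * M * Equiv.swap f g) y =
      (Equiv.swap f g) (M ((Equiv.swap f g) y)) := fun y => rfl
  refine ⟨⟨fun y => ?_, fun y hy => ?_⟩, fun hc S hS hcl => ?_⟩
  · rw [eM, eM, e3, hM.1, e3]
  · rw [eM] at hy
    apply hM.2 ((Equiv.swap f g) y)
    have := congrArg (Equiv.swap f g) hy
    rw [e3] at this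
    exact this
  · have k1 : x.1 ∈ S ↔ (M x).1 ∈ S := by
      constructor
      · intro hx
        have := hcl x hx
        rw [eM, e1, e2] at this
        exact this
      · intro hx
        have := hcl (M x) hx
        rw [eM, e2, hM.1, e1] at this
        exact this
    have k2 : ∀ y : HE n, y.1 ∈ S → ((Equiv.swap f g) y).1 ∈ S := by
      intro y hy
      by_cases hf : y = f
      · rw [hf, Equiv.swap_apply_left, h4]
        rw [hf, h2] at hy
        exact k1.1 hy
      · by_cases hg : y = g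
        · rw [hg, Equiv.swap_apply_right, h2]
          rw [hg, h4] at hy
          exact k1.2 hy
        · rw [Equiv.swap_apply_of_ne_of_ne hf hg]
          exact hy
    apply hc S hS
    intro h hh
    have := k2 _ (hcl _ (k2 h hh))
    rw [eM, e3, e3] at this
    exact this

theorem inv_le {n : ℕ} {M M' : Equiv.Perm (HE n)} (h : Iso M M') (k : ℕ) :
    (cycs k M).card ≤ (cycs k M').card := by
  obtain ⟨π, σ, h1, h2⟩ := h
  have key : ∀ (v : Fin n) (a : Fin 3), σ (v, a) = (π v, (σ (v, a)).2) := by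
    intro v a
    exact Prod.ext (h1 (v, a)) rfl
  have inj2 : ∀ (v : Fin n) (a b : Fin 3), (σ (v, a)).2 = (σ (v, b)).2 → a = b := by
    intro v a b hab
    have : σ (v, a) = σ (v, b) := by rw [key v a, key v b, hab]
    exact (Prod.ext_iff.1 (σ.injective this)).2
  apply Finset.card_le_card_of_injOn
    (fun c => ((fun i => π (c.1 i), fun i => (σ (c.1 i, c.2.1 i)).2,
      fun i => (σ (c.1 i, c.2.2 i)).2) : CD k n))
  · intro c hc
    rw [Finset.mem_coe, mem_cycs] at hc ⊢
    obtain ⟨c1, c2, c3⟩ := hc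
    refine ⟨fun i j hij => c1 (π.injective hij), fun i hi => c2 i (inj2 _ _ _ hi), fun i => ?_⟩
    show M' (π (c.1 i), (σ (c.1 i, c.2.2 i)).2) = (π (c.1 (i + 1)), (σ (c.1 (i + 1), c.2.1 (i + 1))).2)
    rw [← key, ← key, ← h2, c3]
  · intro c _ c' _ hcc
    have hcc1 := congrArg (fun z : CD k n => z.1) hcc
    have hcc2 := congrArg (fun z : CD k n => z.2.1) hcc
    have hcc3 := congrArg (fun z : CD k n => z.2.2) hcc
    dsimp only at hcc1 hcc2 hcc3
    have e1 : c.1 = c'.1 := by
      funext i
      exact π.injective (congrFun hcc1 i)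
    have e2 : c.2.1 = c'.2.1 := by
      funext i
      have := congrFun hcc2 i
      rw [← e1] at this
      exact inj2 _ _ _ this
    have e3 : c.2.2 = c'.2.2 := by
      funext i
      have := congrFun hcc3 i
      rw [← e1] at this
      exact inj2 _ _ _ this
    exact Prod.ext e1 (Prod.ext e2 e3)

theorem t_INV : S_INV := fun _ _ _ h k => le_antisymm (inv_le h k) (inv_le h.symm k)

instance finite_cls (n : ℕ) : Finite (Cls n) := by
  unfold Cls
  have : Finite (CubicGraph n) := by
    unfold CubicGraph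
    infer_instance
  infer_instance

theorem t_DEG (h1 : S_MOVE) (h2 : S_WMC) (h3 : S_INV) : S_DEG := by
  classical
  intro n L d M hN hd
  have hmem : ∀ k, k ∈ lens L M.1 ↔ (k ≤ L ∧ 2 ≤ k ∧ (cycs k M.1).Nonempty) := by
    intro k
    simp only [lens, Finset.mem_filter, Finset.mem_range]
    constructor
    · rintro ⟨a, b, c⟩; exact ⟨by omega, b, c⟩
    · rintro ⟨a, b, c⟩; exact ⟨by omega, b, c⟩
  have hex : ∀ k : ℕ, ∃ M' : CubicGraph n, k ∈ lens L M.1 → (WM M.1 M'.1 ∧
      (∀ j, k < j → j ≤ L → (cycs j M'.1).card = (cycs j M.1).card) ∧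
      (cycs k M'.1).card < (cycs k M.1).card) := by
    intro k
    by_cases hk : k ∈ lens L M.1
    · obtain ⟨hkL, hk2, hne⟩ := (hmem k).1 hk
      obtain ⟨M', a, b, c⟩ := h1 n M.1 L k M.2.1 hN (by omega) hkL hne
      have hw := h2 n M.1 M' a M.2.1
      exact ⟨⟨M', hw.1, hw.2 M.2.2⟩, fun _ => ⟨a, b, c⟩⟩
    · exact ⟨M, fun h => absurd h hk⟩
  choose F hF using hex
  obtain ⟨G, hG⟩ : ∃ G : ℕ → Cls n, ∀ k, G k = Quotient.mk (isoSetoid n) (F k) :=
    ⟨fun k => Quotient.mk (isoSetoid n) (F k), fun _ => rfl⟩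
  have himg : (((lens L M.1).image G : Finset (Cls n)) : Set (Cls n)) ⊆
      (Gam n).neighborSet (Quotient.mk (isoSetoid n) M) := by
    intro y hy
    rw [Finset.coe_image] at hy
    obtain ⟨k, hk, rfl⟩ := hy
    obtain ⟨a, b, c⟩ := hF k (by exact_mod_cast hk)
    show (Gam n).Adj (Quotient.mk (isoSetoid n) M) (G k)
    refine ⟨fun he => ?_, M, F k, rfl, (hG k).symm, a⟩
    rw [hG] at he
    have hiso : Iso M.1 (F k).1 := Quotient.exact he
    have := h3 n _ _ hiso k
    omega
  have hinj : Set.InjOn G (lens L M.1 : Set ℕ) := by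
    have aux : ∀ k k', k ∈ lens L M.1 → k' ∈ lens L M.1 → k < k' → G k ≠ G k' := by
      intro k k' hk hk' hlt he
      obtain ⟨a, b, c⟩ := hF k hk
      obtain ⟨a', b', c'⟩ := hF k' hk'
      rw [hG, hG] at he
      have hiso : Iso (F k).1 (F k').1 := Quotient.exact he
      have e1 := h3 n _ _ hiso k'
      have e2 := b k' hlt ((hmem k').1 hk').1
      omega
    intro k hk k' hk' he
    by_contra hne
    rcases lt_or_gt_of_ne hne with hlt | hlt
    · exact aux k k' (by exact_mod_cast hk) (by exact_mod_cast hk') hlt he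
    · exact aux k' k (by exact_mod_cast hk') (by exact_mod_cast hk) hlt he.symm
  have hcard := Finset.card_image_of_injOn hinj
  calc d ≤ (lens L M.1).card := hd
    _ = ((lens L M.1).image G).card := hcard.symm
    _ = (((lens L M.1).image G : Finset (Cls n)) : Set (Cls n)).ncard :=
        (Set.ncard_coe_finset _).symm
    _ ≤ _ := Set.ncard_le_ncard himg (Set.toFinite _)

end Pool.Agent.K1H96.CG
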